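import Pool.Agent.Helper82.HG.M_LIP
import Pool.Agent.Helper82.HG.M_BAS
import Pool.Agent.Helper82.HG.M_LAM
import Pool.Agent.Helper82.HG.M_CTL
import Pool.Agent.Helper82.HG.M_CTM
import Pool.Agent.Helper82.HG.M_PA
import Pool.Agent.Helper82.HG.M_PB
import Pool.Agent.Helper82.HG.M_SUM
import Pool.Agent.Helper82.HG.M_NCF
import Pool.Agent.Helper82.HG.M_NID
import Pool.Agent.Helper82.HG.M_CRO
import Pool.Agent.Helper82.HG.M_SEP
import Pool.Agent.Helper82.HG.M_CRD
import Pool.Agent.Helper82.HG.M_INT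
import Pool.Agent.Helper82.HG.M_REP
import Pool.Agent.Helper82.HG.M_BOX
import Pool.Agent.Helper82.HG.M_MAIN

set_option autoImplicit false

namespace Pool.Agent.Helper82.BD.BoxDimensionResult

open MeasureTheory Pool.Agent.Helper82.HG

/-- **Hector's finiteness of gap orbits for exceptional minimal sets of box dimension less than one**
(no condition on the elements of the group). The group is generated by finitely many `C²` circle
diffeomorphisms (given by their lifts to the line) and the unit translation; `Λ` is the lift of an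
exceptional minimal set. If the upper box dimension of `Λ` is less than one (Minkowski content bound
`|Λ_r ∩ [0,1]| ≤ C r^δ`), or more generally if `Λ` has Lebesgue measure zero and
`log dist(·, Λ)` is integrable on a period, then the gaps of `Λ` fall into finitely many orbits. -/
theorem result :
    ∀ (n : ℕ) (F : Fin n → Equiv.Perm ℝ),
      (∀ i, ContDiff ℝ 2 (⇑(F i))) →
      (∀ i x, deriv (⇑(F i)) x ≠ 0) →
      (∀ i, ∃ d : ℝ, (d = 1 ∨ d = -1) ∧ ∀ x : ℝ, F i (x + 1) = F i x + d) →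
      ∀ Λ : Set ℝ, IsClosed Λ →
        (∀ g ∈ Subgroup.closure (insert (Equiv.addRight (1 : ℝ)) (Set.range F)),
            ⇑g '' Λ ⊆ Λ) →
        (∀ K : Set ℝ, K ⊆ Λ → IsClosed K → K.Nonempty →
            (∀ g ∈ Subgroup.closure (insert (Equiv.addRight (1 : ℝ)) (Set.range F)),
                ⇑g '' K ⊆ K) → K = Λ) →
        Λ ≠ Set.univ →
        (Λ ∩ Set.Ico (0 : ℝ) 1).Infinite →
        ((∃ C δ : ℝ, 0 < δ ∧ ∀ r : ℝ, 0 < r → r ≤ 1 →
            volume (Metric.thickening r Λ ∩ Set.Icc (0 : ℝ) 1) ≤ ENNReal.ofReal (C * r ^ δ)) ∨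
          (volume Λ = 0 ∧
            IntegrableOn (fun z => Real.log (Metric.infDist z Λ)) (Set.Icc (0 : ℝ) 1) volume)) →
        ∃ s : Finset (ℝ × ℝ), ∀ a b : ℝ, a < b → a ∈ Λ → b ∈ Λ →
          Set.Ioo a b ∩ Λ = ∅ →
          ∃ p ∈ s, ∃ g ∈ Subgroup.closure (insert (Equiv.addRight (1 : ℝ)) (Set.range F)),
            ⇑g '' Set.Ioo p.1 p.2 = Set.Ioo a b := by
  intro n F hF hd hdeg Λ hc hinv hmin hu hinf hcase
  obtain ⟨K, S, hK, hS, hG⟩ := tLIP n F hF hd hdeg
  rw [← hG] at hinv hmin ⊢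
  have hLam : Lam S Λ := ⟨hc, hinv, hmin, hu, hinf⟩
  have hK0 : (0 : ℝ) ≤ K := le_trans zero_le_one hK
  have bas := tBAS
  have lam := tLAM bas
  have ctl := tCTL bas
  have ctm := tCTM bas ctl
  have pb := tPB tPA
  have ncf := tNCF bas lam ctm tPA pb
  have nid := tNID bas ctl ctm
  have sep := tSEP lam ncf nid tCRO
  have int := tINT tCRD
  have rep := tREP bas lam tSUM
  have main := tMAIN bas lam tSUM sep int rep
  have hne : Λ.Nonempty := hinf.nonempty.mono Set.inter_subset_left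
  have hT : T ∈ Gr S := Subgroup.subset_closure (Set.mem_insert _ _)
  have hper : ∀ x, x ∈ Λ ↔ x + 1 ∈ Λ := by
    intro x
    have := (lam K S Λ hS hLam).1 T hT x
    have e : T x = x + 1 := rfl
    rw [e] at this
    exact this.symm
  have h2 : volume Λ = 0 ∧
      IntegrableOn (fun z => Real.log (Metric.infDist z Λ)) (Set.Icc (0 : ℝ) 1) volume := by
    rcases hcase with h | h
    · exact tBOX Λ hc hne hper h
    · exact h
  obtain ⟨s, hs⟩ := main K S Λ hK hS hLam h2.1 h2.2
  exact ⟨s, fun a b hab ha hb hI => hs a b ⟨hab, ha, hb, hI⟩⟩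

end Pool.Agent.Helper82.BD.BoxDimensionResult
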